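import Mathlib

set_option autoImplicit false

/-!
# The exact threshold for families with half of the subsets of `[N]^d`

A family of more than half of the subsets of `[N]^d` is always good. We determine for which `d` and
`N` one half of the subsets suffices: if and only if `N ≥ d + 2`; and then sets `γ` with at most `d + 1`
elements suffice, while at most `d` elements are never enough.

Lower bound: choose one cell with support exactly `J` for every nonempty `J ⊆ [N]` with
at most `d` elements, and take the sets `A` which contain an odd number of the chosen cells; `γ^d`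
contains `2^|γ| - 1` of them if `|γ| ≤ d`. If `|γ| = d + 1 = N` then only `A = ∅` is disjoint from
`γ^d`, and `∅` is not in the family.

Upper bound: in a family `S` of half of the subsets which is not good exactly one of `A`, `A ∆ {(q, …, q)}`
is a member, for all `q`; so exactly one of `A`, `A ∪ γ^d` is a member for all `γ` which miss some `q`.
By induction on `|γ| ≤ d + 1` also exactly one of `A`, `A ∪ T γ` is a member, `T γ` being the set of the cells
with support `γ`: `A ∪ γ^d` is built from `A ∪ T γ` by the `2^|γ| - 2` sets `T κ`, `κ` a proper subset of `γ`,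
the larger ones first. This is absurd for `|γ| = d + 1`, since then `T γ` is empty.
-/

namespace Pool.Agent.Results.MP_90b327_co.ExactHalf

open Finset

/-- `cube d γ` is `γ^d`, the set of all `d`-tuples with entries in `γ`. -/
def cube {N : ℕ} (d : ℕ) (γ : Finset (Fin N)) : Finset (Fin d → Fin N) :=
  Fintype.piFinset (fun _ : Fin d => γ)

/-- A family `S` of subsets of `[N]^d` is good if there are `A ∈ S` and a nonempty `γ ⊆ [N]` with
`A ∩ γ^d = ∅` and `A ∪ γ^d ∈ S`. -/
def Good {N d : ℕ} (S : Finset (Finset (Fin d → Fin N))) : Prop :=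
  ∃ A ∈ S, ∃ γ : Finset (Fin N), γ.Nonempty ∧ Disjoint A (cube d γ) ∧ A ∪ cube d γ ∈ S

/-- The same with a set `γ` with at most `k` elements. -/
def GoodLE {N d : ℕ} (k : ℕ) (S : Finset (Finset (Fin d → Fin N))) : Prop :=
  ∃ A ∈ S, ∃ γ : Finset (Fin N), γ.Nonempty ∧ γ.card ≤ k ∧ Disjoint A (cube d γ) ∧
    A ∪ cube d γ ∈ S

/-- The support of a cell. -/
def supp {N d : ℕ} (x : Fin d → Fin N) : Finset (Fin N) := univ.image x

/-- The cells with support `L`. -/
def cells {N : ℕ} (d : ℕ) (L : Finset (Fin N)) : Finset (Fin d → Fin N) :=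
  univ.filter fun x => supp x = L

lemma mem_cube {N d : ℕ} {γ : Finset (Fin N)} {x : Fin d → Fin N} :
    x ∈ cube d γ ↔ supp x ⊆ γ := by
  simp only [cube, Fintype.mem_piFinset, supp, Finset.image_subset_iff, mem_univ, true_imp_iff]

lemma mem_cells {N d : ℕ} {L : Finset (Fin N)} {x : Fin d → Fin N} :
    x ∈ cells d L ↔ supp x = L := by
  simp [cells]

lemma supp_nonempty {N d : ℕ} (hd : 1 ≤ d) (x : Fin d → Fin N) : (supp x).Nonempty :=
  ⟨x ⟨0, hd⟩, mem_image_of_mem _ (mem_univ _)⟩

lemma supp_card {N d : ℕ} (x : Fin d → Fin N) : (supp x).card ≤ d := by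
  simpa [supp] using (Finset.card_image_le (s := (univ : Finset (Fin d))) (f := x))

lemma cube_mono {N d : ℕ} {γ γ' : Finset (Fin N)} (h : γ ⊆ γ') : cube d γ ⊆ cube d γ' := by
  intro x hx
  rw [mem_cube] at hx ⊢
  exact hx.trans h

/-- Adding the sets `cells d K`, the larger ones first. -/
lemma add_many {N d : ℕ} (g : Finset (Fin d → Fin N) → ZMod 2) (U : Finset (Finset (Fin N))) :
    (∀ K ∈ U, ∀ B : Finset (Fin d → Fin N), Disjoint B (cube d K) →
      g (B ∪ cells d K) = g B + 1) →
    ∀ B : Finset (Fin d → Fin N), (∀ K ∈ U, Disjoint B (cube d K)) →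
      g (B ∪ U.biUnion (cells d)) = g B + U.card := by
  classical
  induction U using Finset.strongInduction with
  | H U ih =>
    intro hU B hB
    rcases U.eq_empty_or_nonempty with rfl | hne
    · simp
    · obtain ⟨K, hK, hmin⟩ := Finset.exists_min_image U Finset.card hne
      have h1 := ih (U.erase K) (Finset.erase_ssubset hK)
        (fun K' hK' => hU K' (Finset.mem_of_mem_erase hK')) B
        (fun K' hK' => hB K' (Finset.mem_of_mem_erase hK'))
      have hdis : Disjoint (B ∪ (U.erase K).biUnion (cells d)) (cube d K) := by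
        rw [Finset.disjoint_union_left]
        refine ⟨hB K hK, ?_⟩
        rw [Finset.disjoint_left]
        intro x hx hx'
        rw [Finset.mem_biUnion] at hx
        obtain ⟨K', hK', hxK'⟩ := hx
        rw [mem_cells] at hxK'
        rw [mem_cube, hxK'] at hx'
        have := Finset.eq_of_subset_of_card_le hx' (hmin K' (Finset.mem_of_mem_erase hK'))
        exact (Finset.ne_of_mem_erase hK') this
      have h2 := hU K hK _ hdis
      have h3 : B ∪ (U.erase K).biUnion (cells d) ∪ cells d K = B ∪ U.biUnion (cells d) := by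
        conv_rhs => rw [← Finset.insert_erase hK, Finset.biUnion_insert]
        rw [Finset.union_assoc, Finset.union_comm ((U.erase K).biUnion (cells d))]
      rw [h3, h1] at h2
      rw [h2]
      have h4 : ((U.erase K).card : ZMod 2) + 1 = (U.card : ZMod 2) := by
        have := Finset.card_erase_add_one hK
        exact_mod_cast congrArg (Nat.cast : ℕ → ZMod 2) this
      rw [← h4]
      ring

/-- From the steps `γ^d` to the steps `cells d γ`. -/
lemma add_one {N d : ℕ} (hd : 1 ≤ d) (g : Finset (Fin d → Fin N) → ZMod 2)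
    (hg : ∀ L : Finset (Fin N), L.Nonempty → L.card ≤ d + 1 → ∀ B : Finset (Fin d → Fin N),
      Disjoint B (cube d L) → g (B ∪ cube d L) = g B + 1) (L : Finset (Fin N)) :
    L.Nonempty → L.card ≤ d + 1 → ∀ B : Finset (Fin d → Fin N),
      Disjoint B (cube d L) → g (B ∪ cells d L) = g B + 1 := by
  classical
  induction L using Finset.strongInduction with
  | H L ih =>
    intro hL hLu B hB
    set U : Finset (Finset (Fin N)) := (L.powerset.erase ∅).erase L with hU
    have hUmem : ∀ K, K ∈ U ↔ K ≠ L ∧ K.Nonempty ∧ K ⊆ L := by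
      intro K
      simp only [hU, Finset.mem_erase, Finset.mem_powerset, Finset.nonempty_iff_ne_empty]
    have hUcard : (U.card : ZMod 2) = 0 := by
      have h1 : (L.powerset.erase ∅).card + 1 = 2 ^ L.card := by
        rw [Finset.card_erase_add_one (Finset.empty_mem_powerset L), Finset.card_powerset]
      have h2 : U.card + 1 = (L.powerset.erase ∅).card := by
        rw [hU]
        refine Finset.card_erase_add_one ?_
        simp [hL.ne_empty]
      have h3 : U.card + 2 = 2 ^ L.card := by omega
      have h4 : Even U.card := by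
        have h5 : Even (2 ^ L.card) := by
          rw [Nat.even_pow]
          exact ⟨even_two, (Finset.card_pos.mpr hL).ne'⟩
        rw [← h3] at h5
        exact (Nat.even_add.mp h5).mpr even_two
      exact (ZMod.natCast_eq_zero_iff_even).mpr h4
    have hsplit : B ∪ cube d L = (B ∪ cells d L) ∪ U.biUnion (cells d) := by
      ext x
      simp only [Finset.mem_union, Finset.mem_biUnion, mem_cells, mem_cube, hUmem]
      constructor
      · rintro (h | h)
        · exact Or.inl (Or.inl h)
        · by_cases h' : supp x = L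
          · exact Or.inl (Or.inr h')
          · exact Or.inr ⟨supp x, ⟨h', supp_nonempty hd x, h⟩, rfl⟩
      · rintro ((h | h) | ⟨K, ⟨-, -, h⟩, h'⟩)
        · exact Or.inl h
        · exact Or.inr h.le
        · exact Or.inr (h'.le.trans h)
    have h1 := add_many g U (fun K hK B' hB' => by
        rw [hUmem] at hK
        exact ih K (hK.2.2.ssubset_of_ne hK.1) hK.2.1
          ((Finset.card_le_card hK.2.2).trans hLu) B' hB')
      (B ∪ cells d L) (fun K hK => by
        rw [hUmem] at hK
        rw [Finset.disjoint_union_left]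
        refine ⟨Finset.disjoint_of_subset_right (cube_mono hK.2.2) hB, ?_⟩
        rw [Finset.disjoint_left]
        intro x hx hx'
        rw [mem_cells] at hx
        rw [mem_cube, hx] at hx'
        exact hK.1 (Finset.Subset.antisymm hK.2.2 hx'))
    rw [← hsplit, hUcard, add_zero, hg L hL hLu B hB] at h1
    exact h1.symm

/-- No function flips at all steps `γ^d`, `|γ| ≤ d + 1`, if `N ≥ d + 1`. -/
lemma no_flip {N d : ℕ} (hd : 1 ≤ d) (hN : d + 1 ≤ N) (g : Finset (Fin d → Fin N) → ZMod 2)
    (hg : ∀ L : Finset (Fin N), L.Nonempty → L.card ≤ d + 1 → ∀ B : Finset (Fin d → Fin N),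
      Disjoint B (cube d L) → g (B ∪ cube d L) = g B + 1) : False := by
  classical
  obtain ⟨L, -, hL⟩ := Finset.exists_subset_card_eq (s := (univ : Finset (Fin N))) (n := d + 1)
    (by simpa using hN)
  have hne : L.Nonempty := by
    rw [← Finset.card_pos, hL]; omega
  have h := add_one hd g hg L hne hL.le ∅ (Finset.disjoint_empty_left _)
  have h0 : cells d L = (∅ : Finset (Fin d → Fin N)) := by
    rw [Finset.eq_empty_iff_forall_notMem]
    intro x hx
    rw [mem_cells] at hx
    have := supp_card x
    rw [hx, hL] at this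
    omega
  rw [h0, Finset.union_empty] at h
  have : (1 : ZMod 2) = 0 := by
    have h' : g ∅ + 0 = g ∅ + 1 := by rw [add_zero]; exact h
    exact (add_left_cancel h').symm
  exact one_ne_zero this

/-- The cell `(q, …, q)`. -/
def dg {N : ℕ} (d : ℕ) (q : Fin N) : Fin d → Fin N := fun _ => q

lemma cube_singleton {N d : ℕ} (q : Fin N) : cube d {q} = {dg d q} := by
  ext x
  simp only [cube, Fintype.mem_piFinset, Finset.mem_singleton]
  constructor
  · intro h
    funext i
    exact h i
  · rintro rfl i
    rfl

lemma flip_notMem {N d k : ℕ} (hk : 1 ≤ k) {S : Finset (Finset (Fin d → Fin N))}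
    (hS : ¬ GoodLE k S) (q : Fin N) {A : Finset (Fin d → Fin N)} (hA : A ∈ S) :
    symmDiff A {dg d q} ∉ S := by
  classical
  intro h
  by_cases hq : dg d q ∈ A
  · have h1 : symmDiff A {dg d q} = A \ {dg d q} := by
      ext x
      simp only [Finset.mem_symmDiff, Finset.mem_sdiff, Finset.mem_singleton]
      constructor
      · rintro (h | h)
        · exact h
        · rw [h.1] at h; exact absurd hq h.2
      · exact fun h => Or.inl h
    rw [h1] at h
    refine hS ⟨A \ {dg d q}, h, {q}, Finset.singleton_nonempty q, by simpa using hk, ?_, ?_⟩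
    · rw [cube_singleton]
      exact Finset.sdiff_disjoint
    · rw [cube_singleton, Finset.sdiff_union_of_subset (Finset.singleton_subset_iff.mpr hq)]
      exact hA
  · refine hS ⟨A, hA, {q}, Finset.singleton_nonempty q, by simpa using hk, ?_, ?_⟩
    · rw [cube_singleton]
      exact Finset.disjoint_singleton_right.mpr hq
    · rw [cube_singleton]
      have h1 : symmDiff A {dg d q} = A ∪ {dg d q} := by
        ext x
        simp only [Finset.mem_symmDiff, Finset.mem_union, Finset.mem_singleton]
        constructor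
        · rintro (h | h)
          · exact Or.inl h.1
          · exact Or.inr h.1
        · rintro (h | h)
          · refine Or.inl ⟨h, ?_⟩
            rintro rfl
            exact hq h
          · refine Or.inr ⟨h, ?_⟩
            rw [h]; exact hq
      rw [← h1]; exact h

lemma upper {N d k : ℕ} (hk : 1 ≤ k) (q : Fin N) {S : Finset (Finset (Fin d → Fin N))}
    (hS : ¬ GoodLE k S) :
    2 * S.card ≤ 2 ^ (N ^ d) ∧ (2 * S.card = 2 ^ (N ^ d) → ∀ A, A ∉ S →
      symmDiff A {dg d q} ∈ S) := by
  classical
  have hinj : Function.Injective fun A : Finset (Fin d → Fin N) => symmDiff A {dg d q} :=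
    symmDiff_left_injective _
  have hsub : S.image (fun A => symmDiff A {dg d q}) ⊆ Sᶜ := by
    intro B hB
    rw [Finset.mem_image] at hB
    obtain ⟨A, hA, rfl⟩ := hB
    rw [Finset.mem_compl]
    exact flip_notMem hk hS q hA
  have hcard : (S.image (fun A => symmDiff A {dg d q})).card = S.card :=
    Finset.card_image_of_injective _ hinj
  have hle := Finset.card_le_card hsub
  have htot := Finset.card_add_card_compl S
  rw [hcard] at hle
  have hall : Fintype.card (Finset (Fin d → Fin N)) = 2 ^ (N ^ d) := by simp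
  rw [hall] at htot
  refine ⟨by omega, fun heq A hA => ?_⟩
  have heq' : S.image (fun A => symmDiff A {dg d q}) = Sᶜ := by
    refine Finset.eq_of_subset_of_card_le hsub ?_
    rw [hcard]; omega
  have : A ∈ S.image (fun A => symmDiff A {dg d q}) := by
    rw [heq', Finset.mem_compl]; exact hA
  rw [Finset.mem_image] at this
  obtain ⟨B, hB, hBA⟩ := this
  rw [← hBA, symmDiff_symmDiff_cancel_right]
  exact hB

lemma not_half {N d : ℕ} (hd : 1 ≤ d) (hN : d + 2 ≤ N) {S : Finset (Finset (Fin d → Fin N))}
    (hS : ¬ GoodLE (d + 1) S) (heq : 2 * S.card = 2 ^ (N ^ d)) : False := by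
  classical
  refine no_flip hd (by omega) (fun A => if A ∈ S then 1 else 0) ?_
  intro L hL hLu B hB
  have hnot : ¬ (B ∈ S ∧ B ∪ cube d L ∈ S) := fun h => hS ⟨B, h.1, L, hL, hLu, hB, h.2⟩
  have hone : B ∈ S ∨ B ∪ cube d L ∈ S := by
    by_contra hcon
    push Not at hcon
    obtain ⟨q, hq⟩ : ∃ q, q ∉ L := by
      by_contra h
      push Not at h
      have h' : L = univ := Finset.eq_univ_iff_forall.mpr h
      rw [h', Finset.card_univ, Fintype.card_fin] at hLu
      omega
    have h1 := (upper (by omega) q hS).2 heq B hcon.1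
    have h2 := (upper (by omega) q hS).2 heq _ hcon.2
    have hqL : dg d q ∉ cube d L := by
      rw [cube, Fintype.mem_piFinset]
      intro h
      exact hq (h ⟨0, hd⟩)
    refine hS ⟨_, h1, L, hL, hLu, ?_, ?_⟩
    · rw [Finset.disjoint_left]
      intro x hx hx'
      rw [Finset.mem_symmDiff, Finset.mem_singleton] at hx
      rcases hx with h | h
      · exact (Finset.disjoint_left.mp hB) h.1 hx'
      · rw [h.1] at hx'; exact hqL hx'
    · have : symmDiff B {dg d q} ∪ cube d L = symmDiff (B ∪ cube d L) {dg d q} := by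
        ext x
        simp only [Finset.mem_union, Finset.mem_symmDiff, Finset.mem_singleton]
        by_cases hx : x = dg d q
        · subst hx
          simp [hqL]
        · simp [hx]
      rw [this]
      exact h2
  by_cases h1 : B ∈ S
  · have h2 : B ∪ cube d L ∉ S := fun h => hnot ⟨h1, h⟩
    simp only [h1, h2, if_true, if_false]
    decide
  · have h2 : B ∪ cube d L ∈ S := hone.resolve_left h1
    simp only [h1, h2, if_true, if_false]
    decide

/-- The number of chosen cells in `γ^d`. -/
lemma exists_cell {N d : ℕ} (J : Finset (Fin N)) (hJ : J.Nonempty) (hJd : J.card ≤ d) :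
    ∃ x : Fin d → Fin N, supp x = J := by
  classical
  obtain ⟨j₀, hj₀⟩ := hJ
  let e := J.equivFin
  refine ⟨fun i => if h : (i : ℕ) < J.card then (e.symm ⟨i, h⟩ : Fin N) else j₀, ?_⟩
  ext j
  simp only [supp, Finset.mem_image, Finset.mem_univ, true_and]
  constructor
  · rintro ⟨i, rfl⟩
    split_ifs with h
    · exact (e.symm ⟨i, h⟩).2
    · exact hj₀
  · intro hj
    refine ⟨⟨e ⟨j, hj⟩, lt_of_lt_of_le (e ⟨j, hj⟩).2 hJd⟩, ?_⟩
    simp

lemma lower {N d : ℕ} (hd : 1 ≤ d) (hN : 1 ≤ N) :
    ∃ S : Finset (Finset (Fin d → Fin N)), 2 * S.card = 2 ^ (N ^ d) ∧ ¬ GoodLE d S ∧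
      (N ≤ d + 1 → ¬ Good S) := by
  classical
  have hc : ∀ J : Finset (Fin N), ∃ x : Fin d → Fin N, J.Nonempty → J.card ≤ d → supp x = J := by
    intro J
    by_cases h : J.Nonempty ∧ J.card ≤ d
    · obtain ⟨x, hx⟩ := exists_cell J h.1 h.2
      exact ⟨x, fun _ _ => hx⟩
    · exact ⟨fun _ => ⟨0, hN⟩, fun h1 h2 => absurd ⟨h1, h2⟩ h⟩
  choose c hc using hc
  set 𝒥 : Finset (Finset (Fin N)) := univ.filter fun J => J.Nonempty ∧ J.card ≤ d with h𝒥
  set C : Finset (Fin d → Fin N) := 𝒥.image c with hC
  have hcJ : ∀ J ∈ 𝒥, supp (c J) = J := by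
    intro J hJ
    rw [h𝒥, Finset.mem_filter] at hJ
    exact hc J hJ.2.1 hJ.2.2
  have hinj : Set.InjOn c 𝒥 := by
    intro J hJ K hK h
    rw [← hcJ J hJ, ← hcJ K hK, h]
  -- the number of chosen cells in a cube
  have hodd : ∀ γ : Finset (Fin N), γ.Nonempty → γ.card ≤ d → Odd ((cube d γ ∩ C).card) := by
    intro γ hγ hγd
    have h1 : cube d γ ∩ C = (γ.powerset.erase ∅).image c := by
      ext x
      simp only [Finset.mem_inter, hC, Finset.mem_image, Finset.mem_erase, Finset.mem_powerset]
      constructor
      · rintro ⟨hx, J, hJ, rfl⟩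
        rw [mem_cube, hcJ J hJ] at hx
        refine ⟨J, ⟨?_, hx⟩, rfl⟩
        rw [h𝒥, Finset.mem_filter] at hJ
        exact hJ.2.1.ne_empty
      · rintro ⟨J, ⟨hJ, hJγ⟩, rfl⟩
        have hJ' : J ∈ 𝒥 := by
          rw [h𝒥, Finset.mem_filter]
          exact ⟨Finset.mem_univ _, Finset.nonempty_iff_ne_empty.mpr hJ,
            (Finset.card_le_card hJγ).trans hγd⟩
        refine ⟨?_, J, hJ', rfl⟩
        rw [mem_cube, hcJ J hJ']
        exact hJγ
    have h2 : ((γ.powerset.erase ∅).image c).card = (γ.powerset.erase ∅).card := by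
      refine Finset.card_image_of_injOn ?_
      intro J hJ K hK h
      have hmem : ∀ J ∈ γ.powerset.erase ∅, J ∈ 𝒥 := by
        intro J hJ
        rw [Finset.mem_erase, Finset.mem_powerset] at hJ
        rw [h𝒥, Finset.mem_filter]
        exact ⟨Finset.mem_univ _, Finset.nonempty_iff_ne_empty.mpr hJ.1,
          (Finset.card_le_card hJ.2).trans hγd⟩
      exact hinj (hmem J hJ) (hmem K hK) h
    have h3 : (γ.powerset.erase ∅).card + 1 = 2 ^ γ.card := by
      rw [Finset.card_erase_add_one (Finset.empty_mem_powerset γ), Finset.card_powerset]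
    rw [h1, h2]
    have h5 : Even (2 ^ γ.card) := by
      rw [Nat.even_pow]
      exact ⟨even_two, (Finset.card_pos.mpr hγ).ne'⟩
    rw [← h3] at h5
    rcases Nat.even_or_odd (γ.powerset.erase ∅).card with h | h
    · exact absurd h5 (by rw [Nat.even_add_one]; exact not_not.mpr h)
    · exact h
  have hsmall : ¬ GoodLE d (univ.filter fun A => Odd ((A ∩ C).card)) := by
    rintro ⟨A, hA, γ, hγ, hγd, hdis, hA'⟩
    rw [Finset.mem_filter] at hA hA'
    have h1 : ((A ∪ cube d γ) ∩ C).card = (A ∩ C).card + (cube d γ ∩ C).card := by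
      rw [Finset.union_inter_distrib_right, Finset.card_union_of_disjoint]
      exact Finset.disjoint_of_subset_left Finset.inter_subset_left
        (Finset.disjoint_of_subset_right Finset.inter_subset_left hdis)
    have h2 := hA'.2
    rw [h1] at h2
    have h3 := hA.2.add_odd (hodd γ hγ hγd)
    exact (Nat.not_odd_iff_even.mpr h3) h2
  refine ⟨univ.filter fun A => Odd ((A ∩ C).card), ?_, hsmall, ?_⟩
  rotate_left
  · rintro hNd ⟨A, hA, γ, hγ, hdis, hA'⟩
    by_cases hγd : γ.card ≤ d
    · exact hsmall ⟨A, hA, γ, hγ, hγd, hdis, hA'⟩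
    · rw [Finset.mem_filter] at hA hA'
      have h1 : γ = univ := by
        rw [← Finset.card_eq_iff_eq_univ, Fintype.card_fin]
        have := Finset.card_le_univ γ
        rw [Fintype.card_fin] at this
        omega
      have h2 : A = ∅ := by
        rw [Finset.eq_empty_iff_forall_notMem]
        intro x hx
        refine (Finset.disjoint_left.mp hdis) hx ?_
        rw [mem_cube, h1]
        exact Finset.subset_univ _
      have h3 := hA.2
      rw [h2] at h3
      simp at h3
  · -- exactly half
    set q : Fin N := ⟨0, hN⟩ with hq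
    have hqJ : ({q} : Finset (Fin N)) ∈ 𝒥 := by
      rw [h𝒥, Finset.mem_filter]
      exact ⟨Finset.mem_univ _, Finset.singleton_nonempty q, by simpa using hd⟩
    set z : Fin d → Fin N := c {q} with hz
    have hzC : z ∈ C := Finset.mem_image_of_mem c hqJ
    have hflip : ∀ A : Finset (Fin d → Fin N),
        (Odd ((symmDiff A {z} ∩ C).card) ↔ ¬ Odd ((A ∩ C).card)) := by
      intro A
      by_cases h : z ∈ A
      · have h1 : symmDiff A {z} ∩ C = (A ∩ C).erase z := by
          ext x
          simp only [Finset.mem_inter, Finset.mem_symmDiff, Finset.mem_singleton, Finset.mem_erase]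
          by_cases hx : x = z
          · subst hx; simp [h]
          · simp [hx]
        have h2 : ((A ∩ C).erase z).card + 1 = (A ∩ C).card :=
          Finset.card_erase_add_one (Finset.mem_inter.mpr ⟨h, hzC⟩)
        rw [h1, ← h2, Nat.odd_add_one, not_not]
      · have h1 : symmDiff A {z} ∩ C = insert z (A ∩ C) := by
          ext x
          simp only [Finset.mem_inter, Finset.mem_symmDiff, Finset.mem_singleton,
            Finset.mem_insert]
          by_cases hx : x = z
          · subst hx; simp [h, hzC]
          · simp [hx]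
        have h2 : (insert z (A ∩ C)).card = (A ∩ C).card + 1 :=
          Finset.card_insert_of_notMem (fun h' => h (Finset.mem_inter.mp h').1)
        rw [h1, h2, Nat.odd_add_one]
    have himg : (univ.filter fun A : Finset (Fin d → Fin N) => Odd ((A ∩ C).card)).image
        (fun A => symmDiff A {z}) = (univ.filter fun A => Odd ((A ∩ C).card))ᶜ := by
      ext B
      simp only [Finset.mem_image, Finset.mem_filter, Finset.mem_univ, true_and, Finset.mem_compl]
      constructor
      · rintro ⟨A, hA, rfl⟩
        rw [hflip A]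
        exact not_not.mpr hA
      · intro hB
        refine ⟨symmDiff B {z}, (hflip B).mpr hB, ?_⟩
        exact symmDiff_symmDiff_cancel_right _ _
    have hcard := Finset.card_image_of_injective
      (univ.filter fun A : Finset (Fin d → Fin N) => Odd ((A ∩ C).card))
      (symmDiff_left_injective ({z} : Finset (Fin d → Fin N)))
    have htot := Finset.card_add_card_compl
      (univ.filter fun A : Finset (Fin d → Fin N) => Odd ((A ∩ C).card))
    have hall : Fintype.card (Finset (Fin d → Fin N)) = 2 ^ (N ^ d) := by simp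
    rw [hall] at htot
    rw [himg] at hcard
    omega

/-- **Theorem.** Let `d ≥ 1` and `N ≥ 1`. (1) A family of more than half of the subsets of `[N]^d` is good.
(2) Some family of exactly half of the subsets of `[N]^d` is not good if and only if `N ≤ d + 1`. (3) If
`N ≥ d + 2` then every family of at least half of the subsets of `[N]^d` contains `A` and `A ∪ γ^d` for some
nonempty `γ` with at most `d + 1` elements and `A ∩ γ^d = ∅`. (4) Here `d + 1` can not be replaced by `d`,
for any `N`. -/
theorem result (d N : ℕ) (hd : 1 ≤ d) (hN : 1 ≤ N) :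
    (∀ S : Finset (Finset (Fin d → Fin N)), 2 ^ (N ^ d) < 2 * S.card → Good S) ∧
    ((∃ S : Finset (Finset (Fin d → Fin N)), ¬ Good S ∧ 2 * S.card = 2 ^ (N ^ d)) ↔ N ≤ d + 1) ∧
    (d + 2 ≤ N → ∀ S : Finset (Finset (Fin d → Fin N)), 2 ^ (N ^ d) ≤ 2 * S.card →
      GoodLE (d + 1) S) ∧
    (∃ S : Finset (Finset (Fin d → Fin N)), 2 * S.card = 2 ^ (N ^ d) ∧ ¬ GoodLE d S) := by
  have hmono : ∀ (k : ℕ) (S : Finset (Finset (Fin d → Fin N))), GoodLE k S → Good S := by
    rintro k S ⟨A, hA, γ, hγ, -, h1, h2⟩
    exact ⟨A, hA, γ, hγ, h1, h2⟩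
  have hmain : d + 2 ≤ N → ∀ S : Finset (Finset (Fin d → Fin N)), 2 ^ (N ^ d) ≤ 2 * S.card →
      GoodLE (d + 1) S := by
    intro h S hS
    by_contra hcon
    have h1 := (upper (by omega) ⟨0, hN⟩ hcon).1
    exact not_half hd h hcon (le_antisymm h1 hS)
  refine ⟨?_, ⟨?_, ?_⟩, hmain, ?_⟩
  · intro S hS
    by_contra hcon
    have h1 := (upper le_rfl ⟨0, hN⟩ (fun h => hcon (hmono 1 S h))).1
    omega
  · rintro ⟨S, hS, heq⟩
    by_contra h
    exact hS (hmono _ S (hmain (by omega) S heq.ge))
  · intro h
    obtain ⟨S, h1, -, h3⟩ := lower hd hN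
    exact ⟨S, h3 h, h1⟩
  · obtain ⟨S, h1, h2, -⟩ := lower hd hN
    exact ⟨S, h1, h2⟩

end Pool.Agent.Results.MP_90b327_co.ExactHalf
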