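import Pool.Agent.H700.VB.Trig
import Pool.Graph.R_seed8.Results.MP_90b327_co.VectorThreshold
import Pool.Graph.R_seed8.Results.MP_90b327_co.FourCycleThreshold

/-!
# The restricted density polynomial Hales-Jewett conjecture relative to families of bounded VC dimension

Let `I_1, ..., I_M` be disjoint subsets of `[N]` with `l` elements. The sections of a family `G` of subsets
of `[N]^d` at the block `I_k^d` are the families `{x ⊆ I_k^d : x ∪ Y ∈ G}`, where `Y` is any set of cells
outside of the block (it even suffices to change `Y` in the other blocks only). We consider the families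
whose sections at the blocks have bounded VC dimension, and all Boolean combinations `F` of boundedly many
of them. Let `τ` be a density above which the conjecture is true in dimension `d` (for one `n`, all families
of subsets of `[n]^d` of density more than `τ` are good). It is shown that a family `S ⊆ F` which is not
good has at most `τ |F| + ε 2^(N^d)` elements, for suitable `l` and `M` which depend on `d`, `τ`, `ε`, the
VC dimension and the number of the families only. So the conjecture would imply its relative form in all these
families, and for `d = 2` the relative form holds for all densities above `0.3223`, for `d = 1` for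
all positive densities, for the other `d` above `2^(d-2)/(2^(d-1) + 1)` (with the library's theorems for the
family of all sets).

Examples (2)-(4):

* `G = {A : f(A) > 0}`, `f` a real function of rank at most `w` at the blocks (families of bounded sign rank),
  and `G = {A : f(A) ≠ 0}`, `f` a function of rank at most `w` with values in any field;
* the families decided by programs of `w × w` matrices in which each cell is read at most `p` times, in any
  order, where the program accepts if its value is positive (for real matrices; so probabilistic machines of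
  bounded width with unbounded error) or not zero (for matrices over any field);
* the superlevel sets `{A : t < ∑ b_j cos (φ_j + ∑_(c ∈ A) θ_j(c))}` of trigonometric polynomials with `s`
  frequencies, all coefficients, phases and frequencies arbitrary.

Before this, families which contain almost all of a family decided by matrix programs with acceptance `≠ 0` were
known to be good; the relative form was not known for programs, nor anything for threshold acceptance.

**Proof.** (a) `Pool.Agent.H700.VB.multi_fin`: the polynomial Hales-Jewett theorem with several parameters. If the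
subsets of `[l]^d` are coloured with `k` colours there are disjoint nonempty `γ_1, ..., γ_n ⊆ [l]` and `a` such that
the sets `a ∪ ⋃_(p ∈ X) γ_(p_1) × ... × γ_(p_d)` have the same colour for all `X ⊆ [n]^d`; by induction on `n`
from the library's form of the theorem of Bergelson and Leibman. (b) By Haussler's packing theorem the contents of
a block have boundedly many types (in terms of `ε` and the VC dimension and not of `l`) such that contents of the
same type are equivalent for `F` for almost all contents of the other cells. So by (a) each block has a copy of the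
subsets of `[n]^d` all of whose members are nearly equivalent for `F`. (c) For every contents of the other cells
the part of `S` in the copy is not good, so it has density at most `τ`, and it is empty if `F` has no member
there. (d) By a variance estimate `F` and `S` have the right number of members with given contents of the blocks,
on average over the blocks.
-/

set_option autoImplicit false

namespace Pool.Agent.Results.MP_90b327_co.RelativeToBoundedVC

open Finset Pool.Agent.Y613.PJ Pool.Agent.R756.WP Pool.Agent.H700.VB

/-- The densities above which the library proves the conjecture for all families: `0`, `0.3223`, and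
`2^(d-2)/(2^(d-1) + 1)` for `d ≥ 3`. -/
noncomputable def thr (d : ℕ) : ℝ :=
  if d = 1 then 0 else if d = 2 then 3223 / 10000 else (2 : ℝ) ^ (d - 2) / (2 ^ (d - 1) + 1)

/-- For some `n`, all families of subsets of `[n]^d` with more than `τ 2^(n^d)` elements are good. -/
def Admissible (d : ℕ) (τ : ℝ) : Prop :=
  0 ≤ τ ∧ ∃ n : ℕ, ∀ T : Finset (Finset (Fin d → Fin n)), τ * 2 ^ (n ^ d) < #T → Good T

/-- `F` is a Boolean combination of the families `G i`. -/
def Combination {r d N : ℕ} (G : Fin r → Finset (Finset (Fin d → Fin N)))
    (F : Finset (Finset (Fin d → Fin N))) : Prop :=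
  ∃ g : (Fin r → Bool) → Bool, ∀ A, A ∈ F ↔ g (fun i => decide (A ∈ G i)) = true

/-- `G` is the positivity set of a real function, or the support of a function with values in a field, which
has rank at most `w` at all the blocks `(I k)^d`. -/
def RankDecided {M d N : ℕ} (w : ℕ) (I : Fin M → Finset (Fin N))
    (G : Finset (Finset (Fin d → Fin N))) : Prop :=
  (∃ f : Finset (Fin d → Fin N) → ℝ, (∀ k, FlatRank w (cube d (I k)) f) ∧
    ∀ A, A ∈ G ↔ 0 < f A) ∨
  ∃ (K : Type) (_ : Field K) (f : Finset (Fin d → Fin N) → K),
    (∀ k, FlatRank w (cube d (I k)) f) ∧ ∀ A, A ∈ G ↔ f A ≠ 0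

/-- `G` is the set of the `A` for which the trigonometric polynomial `∑ b_j cos (φ_j + ∑_(c ∈ A) θ_j(c))` with `s`
frequencies is greater than `t`. -/
def TrigDecided {d N : ℕ} (s : ℕ) (G : Finset (Finset (Fin d → Fin N))) : Prop :=
  ∃ (b φ : Fin s → ℝ) (θ : Fin s → (Fin d → Fin N) → ℝ) (t : ℝ),
    ∀ A, A ∈ G ↔ t < ∑ j, b j * Real.cos (φ j + ∑ c ∈ A, θ j c)

/-- **The relative form of the conjecture for Boolean combinations of families of bounded VC dimension.** -/
theorem result (d : ℕ) (hd : 1 ≤ d) :
    -- (0) the admissible densities which are known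
    (∀ τ : ℝ, thr d < τ → Admissible d τ) ∧
    ∀ τ : ℝ, Admissible d τ →
    -- (1) families whose sections at the blocks have bounded VC dimension
    (∀ (D r : ℕ) (ε : ℝ), 0 < ε → ∃ l M : ℕ, ∀ (N : ℕ) (I : Fin M → Finset (Fin N)),
      (∀ k, #(I k) = l) → (∀ j k, j ≠ k → Disjoint (I j) (I k)) →
      ∀ (G : Fin r → Finset (Finset (Fin d → Fin N))) (F S : Finset (Finset (Fin d → Fin N))),
        (∀ i k, SectionsVC D (cube d (I k)) (univ.biUnion fun k => cube d (I k)) (G i)) →
        Combination G F → S ⊆ F → ¬ Good S → (#S : ℝ) ≤ τ * #F + ε * 2 ^ (N ^ d)) ∧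
    -- (2) functions of bounded rank
    (∀ (w r : ℕ) (ε : ℝ), 0 < ε → ∃ l M : ℕ, ∀ (N : ℕ) (I : Fin M → Finset (Fin N)),
      (∀ k, #(I k) = l) → (∀ j k, j ≠ k → Disjoint (I j) (I k)) →
      ∀ (G : Fin r → Finset (Finset (Fin d → Fin N))) (F S : Finset (Finset (Fin d → Fin N))),
        (∀ i, RankDecided w I (G i)) →
        Combination G F → S ⊆ F → ¬ Good S → (#S : ℝ) ≤ τ * #F + ε * 2 ^ (N ^ d)) ∧
    -- (3) programs of matrices
    (∀ (w p r : ℕ) (ε : ℝ), 1 ≤ w → 0 < ε → ∃ N₀ : ℕ, ∀ N : ℕ, N₀ ≤ N →
      ∀ (G : Fin r → Finset (Finset (Fin d → Fin N))) (F S : Finset (Finset (Fin d → Fin N))),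
        (∀ i, ProgramDecided d N w p (G i)) →
        Combination G F → S ⊆ F → ¬ Good S → (#S : ℝ) ≤ τ * #F + ε * 2 ^ (N ^ d)) ∧
    -- (4) trigonometric polynomials
    (∀ (s r : ℕ) (ε : ℝ), 0 < ε → ∃ N₀ : ℕ, ∀ N : ℕ, N₀ ≤ N →
      ∀ (G : Fin r → Finset (Finset (Fin d → Fin N))) (F S : Finset (Finset (Fin d → Fin N))),
        (∀ i, TrigDecided s (G i)) →
        Combination G F → S ⊆ F → ¬ Good S → (#S : ℝ) ≤ τ * #F + ε * 2 ^ (N ^ d)) := by
  refine ⟨fun τ hτ => ?_, ?_⟩
  · have key : ∃ N₀ : ℕ, ∀ T : Finset (Finset (Fin d → Fin N₀)), τ * 2 ^ (N₀ ^ d) < #T → Good T := by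
      unfold thr at hτ
      by_cases h1 : d = 1
      · subst h1
        obtain ⟨N₀, h⟩ := VectorThreshold.result 1 le_rfl τ (by
          unfold VectorThreshold.threshold
          norm_num
          simpa using hτ)
        exact ⟨N₀, h N₀ le_rfl⟩
      · rw [if_neg h1] at hτ
        by_cases h2 : d = 2
        · subst h2
          rw [if_pos rfl] at hτ
          obtain ⟨N₀, h⟩ := VectorThreshold.result 2 hd τ (by
            unfold VectorThreshold.threshold
            rw [if_pos rfl]
            exact hτ)
          exact ⟨N₀, h N₀ le_rfl⟩
        · rw [if_neg h2] at hτ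
          obtain ⟨N₀, h⟩ := FourCycleThreshold.result d (by omega) τ hτ
          exact ⟨N₀, h N₀ le_rfl⟩
    have h0 : 0 ≤ thr d := by
      unfold thr
      split_ifs <;> positivity
    exact ⟨h0.trans hτ.le, key⟩
  · rintro τ ⟨hτ0, n, hτ⟩
    refine ⟨fun D r ε hε => ?_, fun w r ε hε => ?_, fun w p r ε hw hε => ?_, fun s r ε hε => ?_⟩
    · obtain ⟨l, M, h⟩ := main d hd n τ hτ0 hτ D r ε hε
      exact ⟨l, M, fun N I hI hdis G F S hG ⟨g, hg⟩ hSF hgood =>
        h N I hI hdis G g F S hG hg hSF hgood⟩
    · obtain ⟨l, M, h⟩ := main d hd n τ hτ0 hτ w r ε hε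
      refine ⟨l, M, fun N I hI hdis G F S hG ⟨g, hg⟩ hSF hgood =>
        h N I hI hdis G g F S (fun i k => ?_) hg hSF hgood⟩
      have hsub : cube d (I k) ⊆ univ.biUnion fun k => cube d (I k) :=
        subset_biUnion_of_mem (fun k => cube d (I k)) (mem_univ k)
      rcases hG i with ⟨f, h1, h2⟩ | ⟨K, hK, f, h1, h2⟩
      · exact sections_of_flat thin_pos w _ _ hsub (G i) f h2 (h1 k)
      · exact sections_of_flat (thin_ne K) w _ _ hsub (G i) f h2 (h1 k)
    · obtain ⟨N₀, h⟩ := prog_main d hd n τ hτ0 hτ w p r hw ε hε
      exact ⟨N₀, fun N hN G F S hG ⟨g, hg⟩ hSF hgood => h N hN G g F S hG hg hSF hgood⟩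
    · obtain ⟨N₀, h⟩ := trig_main d hd n τ hτ0 hτ s r ε hε
      refine ⟨N₀, fun N hN G F S hG ⟨g, hg⟩ hSF hgood => ?_⟩
      choose b φ θ t hbt using hG
      exact h N hN G g F S b φ θ t hbt hg hSF hgood

end Pool.Agent.Results.MP_90b327_co.RelativeToBoundedVC
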